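import Pool.Agent.TH5.DT.Split

/-!
# The converse, and the self-dual case
-/

set_option autoImplicit false
set_option linter.unusedSectionVars false

namespace Pool.Agent.TH5.DT

open Module

section

variable {k : Type} [Field k]

/-- the product of two forms in different variables -/
noncomputable def ext2 {κ₁ κ₂ : Type} {W : κ₁ ⊕ κ₂ → Type} [∀ a, AddCommGroup (W a)]
    [∀ a, Module k (W a)] (f₁ : MultilinearMap k (fun a : κ₁ => W (Sum.inl a)) k)
    (f₂ : MultilinearMap k (fun a : κ₂ => W (Sum.inr a)) k) : MultilinearMap k W k where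
  toFun v := f₁ (fun a => v (Sum.inl a)) * f₂ (fun a => v (Sum.inr a))
  map_update_add' := by
    intro inst v i x y
    classical
    rcases i with i | i
    · have h1 : ∀ z : W (Sum.inl i), (fun a => Function.update v (Sum.inl i) z (Sum.inl a)) =
          Function.update (fun a => v (Sum.inl a)) i z := by
        intro z
        funext a
        by_cases ha : a = i
        · subst ha
          rw [Function.update_self, Function.update_self]
        · rw [Function.update_of_ne ha, Function.update_of_ne (fun h => ha (Sum.inl.inj h))]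
      have h2 : ∀ z : W (Sum.inl i), (fun a => Function.update v (Sum.inl i) z (Sum.inr a)) =
          fun a => v (Sum.inr a) := by
        intro z
        funext a
        rw [Function.update_of_ne (by simp)]
      simp only [h1, h2, f₁.map_update_add, add_mul]
    · have h1 : ∀ z : W (Sum.inr i), (fun a => Function.update v (Sum.inr i) z (Sum.inr a)) =
          Function.update (fun a => v (Sum.inr a)) i z := by
        intro z
        funext a
        by_cases ha : a = i
        · subst ha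
          rw [Function.update_self, Function.update_self]
        · rw [Function.update_of_ne ha, Function.update_of_ne (fun h => ha (Sum.inr.inj h))]
      have h2 : ∀ z : W (Sum.inr i), (fun a => Function.update v (Sum.inr i) z (Sum.inl a)) =
          fun a => v (Sum.inl a) := by
        intro z
        funext a
        rw [Function.update_of_ne (by simp)]
      simp only [h1, h2, f₂.map_update_add, mul_add]
  map_update_smul' := by
    intro inst v i c x
    classical
    rcases i with i | i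
    · have h1 : ∀ z : W (Sum.inl i), (fun a => Function.update v (Sum.inl i) z (Sum.inl a)) =
          Function.update (fun a => v (Sum.inl a)) i z := by
        intro z
        funext a
        by_cases ha : a = i
        · subst ha
          rw [Function.update_self, Function.update_self]
        · rw [Function.update_of_ne ha, Function.update_of_ne (fun h => ha (Sum.inl.inj h))]
      have h2 : ∀ z : W (Sum.inl i), (fun a => Function.update v (Sum.inl i) z (Sum.inr a)) =
          fun a => v (Sum.inr a) := by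
        intro z
        funext a
        rw [Function.update_of_ne (by simp)]
      simp only [h1, h2, f₁.map_update_smul, smul_eq_mul, mul_assoc]
    · have h1 : ∀ z : W (Sum.inr i), (fun a => Function.update v (Sum.inr i) z (Sum.inr a)) =
          Function.update (fun a => v (Sum.inr a)) i z := by
        intro z
        funext a
        by_cases ha : a = i
        · subst ha
          rw [Function.update_self, Function.update_self]
        · rw [Function.update_of_ne ha, Function.update_of_ne (fun h => ha (Sum.inr.inj h))]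
      have h2 : ∀ z : W (Sum.inr i), (fun a => Function.update v (Sum.inr i) z (Sum.inl a)) =
          fun a => v (Sum.inl a) := by
        intro z
        funext a
        rw [Function.update_of_ne (by simp)]
      simp only [h1, h2, f₂.map_update_smul, smul_eq_mul]
      ring

theorem ext2_apply {κ₁ κ₂ : Type} {W : κ₁ ⊕ κ₂ → Type} [∀ a, AddCommGroup (W a)]
    [∀ a, Module k (W a)] (f₁ : MultilinearMap k (fun a : κ₁ => W (Sum.inl a)) k)
    (f₂ : MultilinearMap k (fun a : κ₂ => W (Sum.inr a)) k) (v : ∀ a, W a) :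
    ext2 f₁ f₂ v = f₁ (fun a => v (Sum.inl a)) * f₂ (fun a => v (Sum.inr a)) := rfl

theorem ext2_ne_zero {κ₁ κ₂ : Type} {W : κ₁ ⊕ κ₂ → Type} [∀ a, AddCommGroup (W a)]
    [∀ a, Module k (W a)] (f₁ : MultilinearMap k (fun a : κ₁ => W (Sum.inl a)) k)
    (f₂ : MultilinearMap k (fun a : κ₂ => W (Sum.inr a)) k) (h₁ : f₁ ≠ 0) (h₂ : f₂ ≠ 0) :
    ext2 f₁ f₂ ≠ 0 := by
  obtain ⟨v₁, hv₁⟩ : ∃ v, f₁ v ≠ 0 := by
    by_contra hcon
    push Not at hcon
    exact h₁ (MultilinearMap.ext hcon)
  obtain ⟨v₂, hv₂⟩ : ∃ v, f₂ v ≠ 0 := by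
    by_contra hcon
    push Not at hcon
    exact h₂ (MultilinearMap.ext hcon)
  intro h0
  let v : ∀ a, W a := fun a => match a with
    | Sum.inl a => v₁ a
    | Sum.inr a => v₂ a
  have h1 : ext2 f₁ f₂ v = 0 := by rw [h0]; rfl
  rw [ext2_apply] at h1
  exact (mul_ne_zero hv₁ hv₂) h1

end

variable {k : Type} [Field k] [CharZero k] [IsAlgClosed k] {Γ : Type} [Group Γ]
  (ε : Γ →* kˣ) {T : Type} (V : T → Type) [∀ t, AddCommGroup (V t)]
  [∀ t, Module k (V t)] [∀ t, FiniteDimensional k (V t)] [∀ t, Nontrivial (V t)]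
  (ρ : ∀ t, Γ →* (V t →ₗ[k] V t)) (A : T → Prop)

theorem exists_scU (hA : ∀ t, A t → ∀ γ, ∃ c : k, ∀ v, ρ t γ v = c • v) :
    ∃ scU : ∀ s, A s → Γ → kˣ, (∀ s hs γ v, ρ s γ v = ((scU s hs γ : kˣ) : k) • v) ∧
      ∀ s hs γ, detU (ρ s) γ = scU s hs γ ^ finrank k (V s) := by
  choose sc hsc using hA
  have hdetsc : ∀ s (hs : A s) γ, ((detU (ρ s) γ : kˣ) : k) = sc s hs γ ^ finrank k (V s) := by
    intro s hs γ
    rw [detU_coe]
    have h1 : ρ s γ = sc s hs γ • (1 : V s →ₗ[k] V s) := by
      ext v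
      exact hsc s hs γ v
    rw [h1, LinearMap.det_smul, map_one, mul_one]
  have hsc0 : ∀ s (hs : A s) γ, sc s hs γ ≠ 0 := by
    intro s hs γ h0
    have h1 := hdetsc s hs γ
    rw [h0, zero_pow (Module.finrank_pos (R := k) (M := V s)).ne'] at h1
    exact Units.ne_zero _ h1
  refine ⟨fun s hs γ => Units.mk0 _ (hsc0 s hs γ), fun s hs γ v => hsc s hs γ v,
    fun s hs γ => ?_⟩
  apply Units.ext
  rw [hdetsc s hs γ, Units.val_pow_eq_pow_val]
  rfl

/-- There is a nonzero eigenform in variables of type `B` with the character `y` such that the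
characters `sx` of the variables have the product `x`. -/
def Rz (B : T → Prop) (sx : T → Γ → kˣ) (x y : Γ → kˣ) : Prop :=
  ∃ (κ : Type) (_ : Fintype κ) (t : κ → T) (f : MultilinearMap k (fun a => V (t a)) k),
    (∀ a, B (t a)) ∧ f ≠ 0 ∧ (∀ γ (v : ∀ a, V (t a)), f (fun a => ρ (t a) γ (v a)) = y γ * f v) ∧
    ∀ γ, ∏ a, sx (t a) γ = x γ

variable {V ρ}

theorem Rz.one (B : T → Prop) (sx : T → Γ → kˣ) : Rz V ρ B sx (fun _ => 1) (fun _ => 1) := by
  refine ⟨Empty, inferInstance, Empty.elim, MultilinearMap.constOfIsEmpty k _ (1 : k),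
    fun a => a.elim, ?_, ?_, ?_⟩
  · intro h0
    have h1 := DFunLike.congr_fun h0 (fun a => a.elim)
    exact one_ne_zero h1
  · intro γ v
    change (1 : k) = _ * 1
    rw [Units.val_one, mul_one]
  · intro γ
    exact Finset.prod_empty

theorem Rz.mul {B : T → Prop} {sx : T → Γ → kˣ} {x₁ y₁ x₂ y₂ : Γ → kˣ}
    (h₁ : Rz V ρ B sx x₁ y₁) (h₂ : Rz V ρ B sx x₂ y₂) :
    Rz V ρ B sx (fun γ => x₁ γ * x₂ γ) (fun γ => y₁ γ * y₂ γ) := by
  obtain ⟨κ₁, i₁, t₁, f₁, hB₁, hn₁, he₁, hx₁⟩ := h₁
  obtain ⟨κ₂, i₂, t₂, f₂, hB₂, hn₂, he₂, hx₂⟩ := h₂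
  refine ⟨κ₁ ⊕ κ₂, inferInstance, Sum.elim t₁ t₂,
    ext2 (W := fun a => V (Sum.elim t₁ t₂ a)) f₁ f₂, ?_, ext2_ne_zero _ _ hn₁ hn₂, ?_, ?_⟩
  · rintro (a | a)
    · exact hB₁ a
    · exact hB₂ a
  · intro γ v
    have h1 := he₁ γ (fun a => v (Sum.inl a))
    have h2 := he₂ γ (fun a => v (Sum.inr a))
    change f₁ (fun a => ρ (t₁ a) γ (v (Sum.inl a))) * f₂ (fun a => ρ (t₂ a) γ (v (Sum.inr a))) =
      ((y₁ γ * y₂ γ : kˣ) : k) * (f₁ (fun a => v (Sum.inl a)) * f₂ (fun a => v (Sum.inr a)))
    rw [h1, h2, Units.val_mul]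
    ring
  · intro γ
    rw [Fintype.prod_sum_type]
    simp only [Sum.elim_inl, Sum.elim_inr]
    rw [hx₁, hx₂]

theorem Rz.pow {B : T → Prop} {sx : T → Γ → kˣ} {x y : Γ → kˣ} (h : Rz V ρ B sx x y) (n : ℕ) :
    Rz V ρ B sx (fun γ => x γ ^ n) (fun γ => y γ ^ n) := by
  induction n with
  | zero =>
    simp only [pow_zero]
    exact Rz.one B sx
  | succ n ih =>
    simp only [pow_succ]
    exact ih.mul h

theorem Rz.prod {B : T → Prop} {sx : T → Γ → kˣ} {ι : Type} (s : Finset ι)
    (x y : ι → Γ → kˣ) (h : ∀ i ∈ s, Rz V ρ B sx (x i) (y i)) :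
    Rz V ρ B sx (fun γ => ∏ i ∈ s, x i γ) (fun γ => ∏ i ∈ s, y i γ) := by
  classical
  induction s using Finset.induction_on with
  | empty =>
    simp only [Finset.prod_empty]
    exact Rz.one B sx
  | insert a s ha ih =>
    simp only [Finset.prod_insert ha]
    exact (h a (Finset.mem_insert_self _ _)).mul (ih fun i hi => h i (Finset.mem_insert_of_mem hi))

theorem Rz.det {B : T → Prop} (sx : T → Γ → kˣ) (s : T) (hs : B s) :
    Rz V ρ B sx (fun γ => sx s γ ^ finrank k (V s)) (fun γ => detU (ρ s) γ) := by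
  classical
  let b := finBasis k (V s)
  refine ⟨Fin (finrank k (V s)), inferInstance, fun _ => s, b.det.toMultilinearMap,
    fun _ => hs, ?_, ?_, ?_⟩
  · intro h0
    have h1 : b.det.toMultilinearMap (fun i => b i) = 0 := by
      have h3 := congrArg (fun f : MultilinearMap k (fun _ : Fin (finrank k (V s)) => V s) k =>
        f (fun i => b i)) h0
      exact h3
    have h2 : b.det.toMultilinearMap (fun i => b i) = 1 := b.det_self
    rw [h2] at h1
    exact one_ne_zero h1
  · intro γ v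
    exact b.det_comp (ρ s γ) v
  · intro γ
    rw [Finset.prod_const, Finset.card_univ, Fintype.card_fin]

variable (V ρ)

theorem detIndependent_of_splits [Fintype T]
    (hA : ∀ t, A t → ∀ γ, ∃ c : k, ∀ v, ρ t γ v = c • v) (hsp : TateSplits ε V ρ A) :
    DetIndependent ε V ρ A := by
  classical
  obtain ⟨scU, hscU, hdetU⟩ := exists_scU V ρ A hA
  intro n hn
  let sx : T → Γ → kˣ := fun s γ => if h : A s then scU s h γ else 1
  obtain ⟨κ, hκ, t, f, -, hne, hef, hx⟩ := Rz.prod (V := V) (ρ := ρ) (B := fun _ => True)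
    (sx := sx) Finset.univ
    (fun s γ => (sx s γ ^ finrank k (V s)) ^ n s) (fun s γ => detU (ρ s) γ ^ n s)
    fun s _ => (Rz.det sx s trivial).pow (n s)
  have hmem := hsp κ t f ⟨_, hn, ⊤, inferInstance, fun γ _ v => hef γ v⟩
  obtain ⟨ψ, ⟨φ, η, hφ, -, hψ⟩, hψ0⟩ : ∃ ψ, IsSplitProduct ε V ρ A t ψ ∧ ψ ≠ 0 := by
    by_contra hcon
    push Not at hcon
    have h1 : Submodule.span k {ψ | IsSplitProduct ε V ρ A t ψ} = ⊥ := by
      rw [Submodule.span_eq_bot]
      exact fun ψ hψ => hcon ψ hψ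
    rw [h1, Submodule.mem_bot] at hmem
    exact hne hmem
  obtain ⟨v, hv⟩ : ∃ v, ψ v ≠ 0 := by
    by_contra hcon
    push Not at hcon
    exact hψ0 (MultilinearMap.ext hcon)
  rw [hψ] at hv
  have hφv := left_ne_zero_of_mul hv
  obtain ⟨x, hxr, H, hH, hxH⟩ := hφ
  have hword : ∀ γ, ((∏ a : {a // A (t a)}, scU (t a) a.2 γ : kˣ) : k) * φ (fun a => v a) =
      φ (fun a => ρ (t a) γ (v a)) := by
    intro γ
    have h1 : (fun a : {a // A (t a)} => ρ (t a) γ (v a)) =
        fun a : {a // A (t a)} => ((scU (t a) a.2 γ : kˣ) : k) • v a := by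
      funext a
      exact hscU (t a) a.2 γ (v a)
    rw [h1, φ.map_smul_univ, smul_eq_mul, Units.coe_prod]
  have hxx : ∀ γ ∈ H, x γ = ∏ s with A s, detU (ρ s) γ ^ n s := by
    intro γ hγ
    have h1 := hxH γ hγ (fun a => v a)
    rw [← hword γ] at h1
    have h2 := mul_right_cancel₀ hφv h1
    have h3 : ∏ a, sx (t a) γ = ∏ a : {a // A (t a)}, scU (t a) a.2 γ := by
      rw [← Fintype.prod_subtype_mul_prod_subtype (fun a => A (t a))]
      have e1 : ∏ a : {a // ¬ A (t a)}, sx (t a) γ = 1 := by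
        refine Finset.prod_eq_one fun a _ => ?_
        simp only [sx]
        rw [dif_neg a.2]
      have e2 : ∏ a : {a // A (t a)}, sx (t a) γ = ∏ a : {a // A (t a)}, scU (t a) a.2 γ := by
        refine Finset.prod_congr rfl fun a _ => ?_
        simp only [sx]
        rw [dif_pos a.2]
      rw [e1, mul_one, e2]
    have h4 : x γ = ∏ a : {a // A (t a)}, scU (t a) a.2 γ := (Units.ext h2).symm
    rw [h4, ← h3, hx γ, Finset.prod_filter]
    refine Finset.prod_congr rfl fun s _ => ?_
    by_cases hs : A s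
    · rw [if_pos hs, hdetU s hs]
      simp only [sx]
      rw [dif_pos hs]
    · rw [if_neg hs]
      simp only [sx]
      rw [dif_neg hs, one_pow, one_pow]
  exact hxr.congr H hH hxx

/-- If the modules which are not of type `A` are self-dual up to a rational power of `ε`, the
determinant condition holds. -/
theorem detIndependent_of_selfDual [Group.FG Γ] [Fintype T]
    (hirr : ∀ t, ¬ A t → PotIrreducible V ρ t) (hcr : FormsCompletelyReducible V ρ)
    (hself : ∀ t, ¬ A t → ∃ f : MultilinearMap k (fun _ : Fin 2 => V t) k, f ≠ 0 ∧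
      IsTateForm ε V ρ (fun _ : Fin 2 => t) f) :
    DetIndependent ε V ρ A := by
  classical
  have hdet : ∀ t, ¬ A t → IsRatPower ε (fun γ => detU (ρ t) γ) := by
    intro t ht
    obtain ⟨f, hne, x, hx, H, hH, hf⟩ := hself t ht
    obtain ⟨E, e, hE, he, hrel⟩ := dets_forms V ρ hcr (fun _ : Fin 2 => t)
      (fun _ => hirr t ht) H hH f hne x hf
    have h1 : IsRatPower ε (fun γ => detU (ρ t) γ ^ (e 0 + e 1)) := by
      refine (hx.pow E).congr H hH fun γ hγ => ?_
      rw [hrel γ hγ, Fin.prod_univ_two, pow_add]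
    exact IsRatPower.of_pow (Nat.add_pos_left (he 0) _) h1
  intro n hn
  have h1 : IsRatPower ε (fun γ => ∏ s with ¬ A s, detU (ρ s) γ ^ n s) :=
    IsRatPower.prod _ (fun s γ => detU (ρ s) γ ^ n s) fun s hs =>
      (hdet s (Finset.mem_filter.1 hs).2).pow (n s)
  refine (hn.mul h1.inv).congr ⊤ inferInstance fun γ _ => ?_
  rw [← Finset.prod_filter_mul_prod_filter_not Finset.univ A, mul_inv_cancel_right]

/-- The determinant condition means that there are no common characters. -/
theorem noCommon_iff [Group.FG Γ] [Fintype T] (hirr : ∀ t, PotIrreducible V ρ t)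
    (hcr : FormsCompletelyReducible V ρ) :
    NoCommonCharacter ε V ρ A ↔ DetIndependent ε V ρ A := by
  classical
  constructor
  · intro hno n hn
    obtain ⟨κ₁, _, t₁, φ, ht₁, hφ, hx, -⟩ := Rz.prod (V := V) (ρ := ρ) (B := A)
      (sx := fun _ _ => 1) (Finset.univ.filter A) _ (fun s γ => detU (ρ s) γ ^ n s)
      fun s hs => (Rz.det (fun _ _ => 1) s (Finset.mem_filter.1 hs).2).pow (n s)
    obtain ⟨κ₂, _, t₂, η, ht₂, hη, hy, -⟩ := Rz.prod (V := V) (ρ := ρ) (B := fun s => ¬ A s)
      (sx := fun _ _ => 1) (Finset.univ.filter fun s => ¬ A s) _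
      (fun s γ => detU (ρ s) γ ^ n s)
      fun s hs => (Rz.det (fun _ _ => 1) s (Finset.mem_filter.1 hs).2).pow (n s)
    refine hno κ₁ κ₂ t₁ t₂ ht₁ ht₂ φ η _ _ ⊤ inferInstance hφ hη (fun γ _ v => hx γ v)
      (fun γ _ v => hy γ v) ?_
    refine hn.congr ⊤ inferInstance fun γ _ => ?_
    rw [Finset.prod_filter_mul_prod_filter_not]
  · intro hind κ₁ κ₂ _ _ t₁ t₂ ht₁ ht₂ φ η x y H hH hφ hη hx hy hxy
    obtain ⟨E₁, e₁, hE₁, -, hr₁⟩ := dets_forms V ρ hcr t₁ (fun a => hirr _) H hH φ hφ x hx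
    obtain ⟨E₂, e₂, hE₂, -, hr₂⟩ := dets_forms V ρ hcr t₂ (fun a => hirr _) H hH η hη y hy
    let n₁ : T → ℕ := fun s => ∑ a with t₁ a = s, e₁ a * E₂
    let n₂ : T → ℕ := fun s => ∑ a with t₂ a = s, e₂ a * E₁
    have h1 : ∀ γ ∈ H, x γ ^ (E₁ * E₂) = ∏ s, detU (ρ s) γ ^ n₁ s := by
      intro γ hγ
      rw [pow_mul, hr₁ γ hγ, ← Finset.prod_pow]
      simp only [← pow_mul]
      exact prod_word t₁ (fun a => e₁ a * E₂) (fun s => detU (ρ s) γ)
    have h2 : ∀ γ ∈ H, y γ ^ (E₁ * E₂) = ∏ s, detU (ρ s) γ ^ n₂ s := by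
      intro γ hγ
      rw [mul_comm, pow_mul, hr₂ γ hγ, ← Finset.prod_pow]
      simp only [← pow_mul]
      exact prod_word t₂ (fun a => e₂ a * E₁) (fun s => detU (ρ s) γ)
    have z1 : ∀ s, ¬ A s → n₁ s = 0 := by
      intro s hs
      refine Finset.sum_eq_zero fun a ha => ?_
      exact absurd ((Finset.mem_filter.1 ha).2 ▸ ht₁ a) hs
    have z2 : ∀ s, A s → n₂ s = 0 := by
      intro s hs
      refine Finset.sum_eq_zero fun a ha => ?_
      exact absurd hs ((Finset.mem_filter.1 ha).2 ▸ ht₂ a)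
    have h3 := hind (fun s => n₁ s + n₂ s) ((hxy.pow (E₁ * E₂)).congr H hH fun γ hγ => by
      rw [mul_pow, h1 γ hγ, h2 γ hγ, ← Finset.prod_mul_distrib]
      exact Finset.prod_congr rfl fun s _ => (pow_add _ _ _).symm)
    refine IsRatPower.of_pow (Nat.mul_pos hE₁ hE₂) (h3.congr H hH fun γ hγ => ?_)
    rw [h1 γ hγ, Finset.prod_filter]
    refine Finset.prod_congr rfl fun s _ => ?_
    by_cases hs : A s
    · rw [if_pos hs, z2 s hs, add_zero]
    · rw [if_neg hs, z1 s hs, pow_zero]

end Pool.Agent.TH5.DT
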