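import Pool.Agent.TH5.DT.Rel

/-!
# Tate forms, the splitting of Tate forms and the determinant condition: definitions
-/

set_option autoImplicit false
set_option linter.unusedSectionVars false

namespace Pool.Agent.TH5.DT

open Module

variable {k : Type} [Field k] {Γ : Type} [Group Γ] (ε : Γ →* kˣ)

/-- `x` is a rational power of `ε` up to finite order: some power `x ^ N`, `N > 0`, agrees with a
power `ε ^ m` on a subgroup of finite index. -/
def IsRatPower (x : Γ → kˣ) : Prop :=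
  ∃ (H : Subgroup Γ) (N : ℕ) (m : ℤ), H.FiniteIndex ∧ 0 < N ∧ ∀ γ ∈ H, x γ ^ N = ε γ ^ m

section forms

variable {T : Type} (V : T → Type) [∀ t, AddCommGroup (V t)] [∀ t, Module k (V t)]
  (ρ : ∀ t, Γ →* (V t →ₗ[k] V t))

/-- A Tate form in variables `v a ∈ V (t a)`: the elements of a subgroup of finite index
multiply it by a rational power of `ε` (up to finite order). -/
def IsTateForm {κ : Type} (t : κ → T) (f : MultilinearMap k (fun a => V (t a)) k) : Prop :=
  ∃ x : Γ → kˣ, IsRatPower ε x ∧ ∃ H : Subgroup Γ, H.FiniteIndex ∧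
    ∀ γ ∈ H, ∀ v : ∀ a, V (t a), f (fun a => ρ (t a) γ (v a)) = x γ * f v

/-- A product of a Tate form in the variables of type `A` and a Tate form in the other
variables. -/
def IsSplitProduct (A : T → Prop) {κ : Type} (t : κ → T)
    (ψ : MultilinearMap k (fun a => V (t a)) k) : Prop :=
  ∃ (φ : MultilinearMap k (fun a : {a // A (t a)} => V (t a)) k)
    (η : MultilinearMap k (fun a : {a // ¬ A (t a)} => V (t a)) k),
    IsTateForm ε V ρ (fun a : {a // A (t a)} => t a) φ ∧
    IsTateForm ε V ρ (fun a : {a // ¬ A (t a)} => t a) η ∧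
    ∀ v, ψ v = φ (fun a => v a) * η (fun a => v a)

/-- All Tate forms, in any number of variables, are combinations of products of Tate forms in the
variables of type `A` and Tate forms in the other variables. -/
def TateSplits (A : T → Prop) : Prop :=
  ∀ (κ : Type) [Fintype κ] (t : κ → T) (f : MultilinearMap k (fun a => V (t a)) k),
    IsTateForm ε V ρ t f → f ∈ Submodule.span k {ψ | IsSplitProduct ε V ρ A t ψ}

open Classical in
/-- The determinant condition: if a product of powers of the determinants of the `V t` is a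
rational power of `ε` up to finite order, then so is its part over the `t` of type `A`. -/
def DetIndependent [Fintype T] (A : T → Prop) : Prop :=
  ∀ n : T → ℕ, IsRatPower ε (fun γ => ∏ t, detU (ρ t) γ ^ n t) →
    IsRatPower ε (fun γ => ∏ t with A t, detU (ρ t) γ ^ n t)

/-- Complete reducibility of the spaces of forms, for all subgroups of finite index. -/
def FormsCompletelyReducible : Prop :=
  ∀ (κ : Type) [Fintype κ] (t : κ → T) (H : Subgroup Γ), H.FiniteIndex →
    ∀ P : Submodule k (MultilinearMap k (fun a => V (t a)) k),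
      (∀ γ ∈ H, ∀ f ∈ P, f.compLinearMap (fun a => ρ (t a) γ) ∈ P) →
      ∃ Q : Submodule k (MultilinearMap k (fun a => V (t a)) k),
        (∀ γ ∈ H, ∀ f ∈ Q, f.compLinearMap (fun a => ρ (t a) γ) ∈ Q) ∧ IsCompl P Q

/-- `V t` is irreducible for all subgroups of finite index. -/
def PotIrreducible (t : T) : Prop :=
  ∀ H : Subgroup Γ, H.FiniteIndex → ∀ U : Submodule k (V t),
    (∀ γ ∈ H, ∀ u ∈ U, ρ t γ u ∈ U) → U = ⊥ ∨ U = ⊤

/-- There are no common characters: if `φ ≠ 0` is a form in variables of type `A` which is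
multiplied by `x γ` and `η ≠ 0` is a form in other variables which is multiplied by `y γ`, for `γ` in
a subgroup of finite index, and `x * y` is a rational power of `ε` up to finite order, then so
is `x`. -/
def NoCommonCharacter (A : T → Prop) : Prop :=
  ∀ (κ₁ κ₂ : Type) [Fintype κ₁] [Fintype κ₂] (t₁ : κ₁ → T) (t₂ : κ₂ → T),
    (∀ a, A (t₁ a)) → (∀ a, ¬ A (t₂ a)) →
    ∀ (φ : MultilinearMap k (fun a => V (t₁ a)) k) (η : MultilinearMap k (fun a => V (t₂ a)) k)
      (x y : Γ → kˣ) (H : Subgroup Γ), H.FiniteIndex → φ ≠ 0 → η ≠ 0 →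
      (∀ γ ∈ H, ∀ v : ∀ a, V (t₁ a), φ (fun a => ρ (t₁ a) γ (v a)) = x γ * φ v) →
      (∀ γ ∈ H, ∀ v : ∀ a, V (t₂ a), η (fun a => ρ (t₂ a) γ (v a)) = y γ * η v) →
      IsRatPower ε (fun γ => x γ * y γ) → IsRatPower ε x

end forms

section

variable {ε}

theorem IsRatPower.mul {x y : Γ → kˣ} (hx : IsRatPower ε x) (hy : IsRatPower ε y) :
    IsRatPower ε (fun γ => x γ * y γ) := by
  obtain ⟨H, N, m, hf, hN, h⟩ := hx
  obtain ⟨H', N', m', hf', hN', h'⟩ := hy
  refine ⟨H ⊓ H', N * N', m * N' + m' * N, inferInstance, Nat.mul_pos hN hN', fun γ hγ => ?_⟩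
  obtain ⟨h1, h2⟩ := Subgroup.mem_inf.1 hγ
  have e1 : x γ ^ (N * N') = ε γ ^ (m * N') := by
    rw [pow_mul, h γ h1, zpow_mul, zpow_natCast]
  have e2 : y γ ^ (N * N') = ε γ ^ (m' * N) := by
    rw [mul_comm N N', pow_mul, h' γ h2, zpow_mul, zpow_natCast]
  rw [mul_pow, e1, e2, zpow_add]

theorem IsRatPower.inv {x : Γ → kˣ} (hx : IsRatPower ε x) : IsRatPower ε (fun γ => (x γ)⁻¹) := by
  obtain ⟨H, N, m, hf, hN, h⟩ := hx
  exact ⟨H, N, -m, hf, hN, fun γ hγ => by rw [inv_pow, h γ hγ, zpow_neg]⟩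

theorem IsRatPower.pow {x : Γ → kˣ} (hx : IsRatPower ε x) (n : ℕ) :
    IsRatPower ε (fun γ => x γ ^ n) := by
  obtain ⟨H, N, m, hf, hN, h⟩ := hx
  refine ⟨H, N, m * n, hf, hN, fun γ hγ => ?_⟩
  rw [← pow_mul, mul_comm, pow_mul, h γ hγ, zpow_mul, zpow_natCast]

theorem IsRatPower.of_pow {x : Γ → kˣ} {r : ℕ} (hr : 0 < r)
    (hx : IsRatPower ε (fun γ => x γ ^ r)) : IsRatPower ε x := by
  obtain ⟨H, N, m, hf, hN, h⟩ := hx
  refine ⟨H, r * N, m, hf, Nat.mul_pos hr hN, fun γ hγ => ?_⟩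
  rw [pow_mul, h γ hγ]

theorem IsRatPower.congr {x y : Γ → kˣ} (hx : IsRatPower ε x) (K : Subgroup Γ)
    (hK : K.FiniteIndex) (h : ∀ γ ∈ K, x γ = y γ) : IsRatPower ε y := by
  obtain ⟨H, N, m, hf, hN, h'⟩ := hx
  refine ⟨H ⊓ K, N, m, inferInstance, hN, fun γ hγ => ?_⟩
  obtain ⟨h1, h2⟩ := Subgroup.mem_inf.1 hγ
  rw [← h γ h2, h' γ h1]

theorem isRatPower_one : IsRatPower ε (fun _ => (1 : kˣ)) :=
  ⟨⊤, 1, 0, inferInstance, one_pos, fun γ _ => by rw [one_pow, zpow_zero]⟩

theorem IsRatPower.prod {ι : Type} (s : Finset ι) (x : ι → Γ → kˣ)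
    (hx : ∀ i ∈ s, IsRatPower ε (x i)) : IsRatPower ε (fun γ => ∏ i ∈ s, x i γ) := by
  classical
  induction s using Finset.induction_on with
  | empty =>
    simp only [Finset.prod_empty]
    exact isRatPower_one
  | insert a s ha ih =>
    simp only [Finset.prod_insert ha]
    exact (hx a (Finset.mem_insert_self _ _)).mul
      (ih fun i hi => hx i (Finset.mem_insert_of_mem hi))

end

end Pool.Agent.TH5.DT
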