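import Pool.Agent.TH5.DT.Gen

/-!
# Eigenvalues on stable lines of forms on irreducible modules are determined by determinants
-/

set_option autoImplicit false
set_option linter.unusedSectionVars false

namespace Pool.Agent.TH5.DT

open Module

variable {k : Type} [Field k] [CharZero k]

section single

variable {V : Type} [AddCommGroup V] [Module k V] [FiniteDimensional k V]

/-- every linear functional on `End V` is `X ↦ trace (X R)` -/
theorem exists_trace_rep (Φ : (V →ₗ[k] V) →ₗ[k] k) :
    ∃ R : V →ₗ[k] V, ∀ X : V →ₗ[k] V, Φ X = LinearMap.trace k V (X * R) := by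
  classical
  let b := finBasis k V
  let M : Matrix (Fin (finrank k V)) (Fin (finrank k V)) k :=
    Matrix.of fun j i => Φ (Matrix.toLin b b (Matrix.single i j (1 : k)))
  refine ⟨Matrix.toLin b b M, fun X => ?_⟩
  have h1 : X = ∑ i, ∑ j, (LinearMap.toMatrix b b X i j) •
      Matrix.toLin b b (Matrix.single i j (1 : k)) := by
    apply (LinearMap.toMatrix b b).injective
    simp only [map_sum, map_smul, LinearMap.toMatrix_toLin, Matrix.smul_single, smul_eq_mul,
      mul_one]
    exact Matrix.matrix_eq_sum_single _
  rw [LinearMap.trace_eq_matrix_trace k b, LinearMap.toMatrix_mul, LinearMap.toMatrix_toLin]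
  conv_lhs => rw [h1]
  simp only [map_sum, map_smul, smul_eq_mul, Matrix.trace, Matrix.diag, Matrix.mul_apply]
  rfl

theorem trace_mul_eq_zero (Y : V →ₗ[k] V)
    (h : ∀ X : V →ₗ[k] V, LinearMap.trace k V (X * Y) = 0) : Y = 0 := by
  classical
  let b := finBasis k V
  apply (LinearMap.toMatrix b b).injective
  rw [map_zero, Matrix.ext_iff_trace_mul_left]
  intro x
  have h1 := h (Matrix.toLin b b x)
  rw [LinearMap.trace_eq_matrix_trace k b, LinearMap.toMatrix_mul, LinearMap.toMatrix_toLin] at h1
  rw [h1, Matrix.mul_zero, Matrix.trace_zero]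

/-- A functional on `End V` that is invariant under an irreducible set of operators is a multiple
of the trace. -/
theorem functional_eq_trace [IsAlgClosed k] [Nontrivial V] (G : Set (V →ₗ[k] V))
    (hirr : ∀ U : Submodule k V, (∀ g ∈ G, ∀ u ∈ U, g u ∈ U) → U = ⊥ ∨ U = ⊤)
    (Φ : (V →ₗ[k] V) →ₗ[k] k) (hΦ : ∀ g ∈ G, ∀ X : V →ₗ[k] V, Φ (g * X) = Φ (X * g)) :
    ∀ X : V →ₗ[k] V, Φ X * (finrank k V : k) = Φ 1 * LinearMap.trace k V X := by
  obtain ⟨R, hR⟩ := exists_trace_rep Φ
  have hcomm : ∀ g ∈ G, g * R = R * g := by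
    intro g hg
    rw [← sub_eq_zero]
    apply trace_mul_eq_zero
    intro X
    have h1 := hΦ g hg X
    rw [hR, hR] at h1
    have h2 : LinearMap.trace k V (g * X * R) = LinearMap.trace k V (X * R * g) := by
      rw [mul_assoc, LinearMap.trace_mul_comm]
    rw [mul_sub, map_sub, ← mul_assoc, ← mul_assoc, ← h2, h1, sub_self]
  obtain ⟨c, hc⟩ := Module.End.exists_eigenvalue R
  have h1 : Module.End.eigenspace R c = ⊤ := by
    refine (hirr _ ?_).resolve_left hc
    intro g hg u hu
    rw [Module.End.mem_eigenspace_iff] at hu ⊢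
    change (R * g) u = _
    rw [← hcomm g hg]
    change g (R u) = _
    rw [hu, map_smul]
  have h2 : R = c • (1 : V →ₗ[k] V) := by
    ext u
    have h3 : u ∈ Module.End.eigenspace R c := by rw [h1]; exact Submodule.mem_top
    rw [Module.End.mem_eigenspace_iff] at h3
    rw [h3]
    rfl
  intro X
  rw [hR, hR, h2, mul_smul_comm, mul_one, mul_smul_comm, mul_one, map_smul, map_smul,
    LinearMap.trace_one, smul_eq_mul, smul_eq_mul]
  ring

/-- the logarithm of the determinant is the trace of the logarithm -/
theorem log_det [IsAlgClosed k] (T X : V →ₗ[k] V) (L : k → ℚ) (hL : IsLog L)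
    (hT : LinearMap.det T ≠ 0)
    (hX : ∀ α : k, ∀ v ∈ Module.End.maxGenEigenspace T α, X v = ((L α : ℚ) : k) • v) :
    LinearMap.trace k V X = ((L (LinearMap.det T) : ℚ) : k) := by
  classical
  let b := finBasis k V
  let h : MultilinearMap k (fun _ : Fin (finrank k V) => V) k := b.det.toMultilinearMap
  have h1 := sum_ins (fun _ => T) h (LinearMap.det T) hT (by
    intro v
    exact b.det_comp T v) L hL (fun _ => X) (fun _ => hX)
  have h2 := congrArg (fun f => f (fun i => b i)) h1
  have h3 : h (fun i => b i) = 1 := b.det_self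
  have h4 : (((L (LinearMap.det T) : ℚ) : k) • h) (fun i => b i) =
      ((L (LinearMap.det T) : ℚ) : k) := by
    rw [smul_apply, h3, smul_eq_mul, mul_one]
  beta_reduce at h2
  rw [h4, sum_apply] at h2
  rw [← h2, LinearMap.trace_eq_matrix_trace k b, Matrix.trace]
  refine Finset.sum_congr rfl fun i _ => ?_
  rw [ins_apply, Matrix.diag_apply, LinearMap.toMatrix_apply]
  symm
  conv_rhs => rw [← one_mul (b.repr (X (b i)) i), ← h3]
  conv_lhs => rw [← b.sum_repr (X (b i))]
  refine (h.map_update_sum Finset.univ i (fun j => b.repr (X (b i)) j • b j)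
    (fun i => b i)).trans ?_
  rw [Finset.sum_eq_single i]
  · rw [h.map_update_smul, Function.update_eq_self, smul_eq_mul, mul_comm]
  · intro j _ hj
    rw [h.map_update_smul]
    have h5 : h (Function.update (fun i => b i) i (b j)) = 0 := by
      refine b.det.map_eq_zero_of_eq _ (i := i) (j := j) ?_ (Ne.symm hj)
      rw [Function.update_self, Function.update_of_ne hj]
    rw [h5, smul_zero]
  · intro hi
    exact absurd (Finset.mem_univ _) hi

end single

section

variable [IsAlgClosed k] {κ : Type} [Fintype κ] {W : κ → Type} [∀ a, AddCommGroup (W a)]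
  [∀ a, Module k (W a)] [∀ a, FiniteDimensional k (W a)] [∀ a, Nontrivial (W a)]
  {G : Type} [Group G] (ρ : ∀ a, G →* (W a →ₗ[k] W a))

/-- The eigenvalue on a stable line with a stable complement in a space of forms on
irreducible modules, up to roots of unity. -/
theorem log_eq (hirr : ∀ a, ∀ U : Submodule k (W a), (∀ g : G, ∀ u ∈ U, ρ a g u ∈ U) →
      U = ⊥ ∨ U = ⊤)
    (h : MultilinearMap k W k) (lam : G → k) (hlam : ∀ g, lam g ≠ 0)
    (hT : ∀ g v, h (fun a => ρ a g (v a)) = lam g * h v)
    (Θ : MultilinearMap k W k →ₗ[k] k) (hΘ : ∀ g f, Θ (f.compLinearMap fun a => ρ a g) = lam g * Θ f)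
    (hΘ1 : Θ h = 1) (g : G) (L : k → ℚ) (hL : IsLog L) :
    L (lam g) = ∑ a, L (LinearMap.det (ρ a g)) / finrank k (W a) := by
  classical
  choose X hX using fun a => exists_log (ρ a g) L
  have h1 := sum_ins (fun a => ρ a g) h (lam g) (hlam g) (hT g) L hL X hX
  have hdet : ∀ a, LinearMap.det (ρ a g) ≠ 0 := by
    intro a h0
    have h2 : LinearMap.det (ρ a g) * LinearMap.det (ρ a g⁻¹) = 1 := by
      rw [← map_mul, ← map_mul, mul_inv_cancel, map_one, map_one]
    rw [h0, zero_mul] at h2
    exact zero_ne_one h2
  have htr : ∀ a, Θ (ins h a (X a)) * (finrank k (W a) : k) =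
      ((L (LinearMap.det (ρ a g)) : ℚ) : k) := by
    intro a
    rw [← log_det (ρ a g) (X a) L hL (hdet a) (hX a)]
    let Φ : (W a →ₗ[k] W a) →ₗ[k] k :=
      { toFun := fun Y => Θ (ins h a Y)
        map_add' := by
          intro Y Z
          rw [← map_add]
          congr 1
          ext v
          rw [add_apply, ins_apply, ins_apply, ins_apply, LinearMap.add_apply,
            h.map_update_add]
        map_smul' := by
          intro c Y
          rw [RingHom.id_apply, ← map_smul]
          congr 1
          ext v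
          rw [smul_apply, ins_apply, ins_apply, LinearMap.smul_apply,
            h.map_update_smul] }
    have h2 := functional_eq_trace (V := W a) (Set.range fun g => ρ a g) (by
      intro U hU
      exact hirr a U fun g u hu => hU _ ⟨g, rfl⟩ u hu) Φ (by
      rintro _ ⟨g', rfl⟩ Y
      change Θ (ins h a (ρ a g' * Y)) = Θ (ins h a (Y * ρ a g'))
      apply mul_left_cancel₀ (hlam g')
      have e1 : (ins h a (ρ a g' * Y)).compLinearMap (fun b => ρ b g') =
          lam g' • ins h a (Y * ρ a g') := by
        ext v
        rw [MultilinearMap.compLinearMap_apply, ins_apply, smul_apply, ins_apply, smul_eq_mul,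
          ← hT]
        congr 1
        funext b
        by_cases hb : b = a
        · subst hb
          rw [Function.update_self, Function.update_self]
          rfl
        · rw [Function.update_of_ne hb, Function.update_of_ne hb]
      rw [← hΘ, e1, map_smul, smul_eq_mul]) (X a)
    have h3 : Φ 1 = 1 := by
      change Θ (ins h a 1) = 1
      rw [← hΘ1]
      congr 1
      ext v
      rw [ins_apply]
      change h (Function.update v a (v a)) = h v
      rw [Function.update_eq_self]
    rw [h3, one_mul] at h2
    exact h2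
  have h4 := congrArg Θ h1
  rw [map_sum, map_smul, hΘ1, smul_eq_mul, mul_one] at h4
  have h5 : ((L (lam g) : ℚ) : k) =
      ((∑ a, L (LinearMap.det (ρ a g)) / finrank k (W a) : ℚ) : k) := by
    rw [← h4]
    push_cast
    refine Finset.sum_congr rfl fun a _ => ?_
    have hd : (finrank k (W a) : k) ≠ 0 := by
      exact_mod_cast (Module.finrank_pos (R := k) (M := W a)).ne'
    rw [eq_div_iff hd]
    exact htr a
  exact_mod_cast h5

end

end Pool.Agent.TH5.DT
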