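import Mathlib

/-!
# Eigenforms and generalized eigenvectors

A multilinear form `h` with `h (T v) = lam * h v` and a logarithm `L` on the ground field: the
derivation defined by the logarithms of the eigenvalues of the `T a` multiplies `h` by `L lam`.
-/

set_option autoImplicit false
set_option linter.unusedSectionVars false

namespace Pool.Agent.TH5.DT

open Module

variable {k : Type} [Field k] [CharZero k]

section ext

variable {κ : Type} {W : κ → Type} [∀ a, AddCommGroup (W a)] [∀ a, Module k (W a)]

/-- a multilinear form vanishes if it vanishes on tuples from spanning sets -/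
theorem multi_ext [Fintype κ] (f : MultilinearMap k W k) (S : ∀ a, Set (W a))
    (hS : ∀ a, Submodule.span k (S a) = ⊤) (h0 : ∀ v, (∀ a, v a ∈ S a) → f v = 0) : f = 0 := by
  classical
  have key : ∀ s : Finset κ, ∀ v, (∀ a, a ∉ s → v a ∈ S a) → f v = 0 := by
    intro s
    induction s using Finset.induction_on with
    | empty => intro v hv; exact h0 v fun a => hv a (Finset.notMem_empty a)
    | insert a s ha ih =>
      intro v hv
      have h1 : ∀ w ∈ Submodule.span k (S a), f (Function.update v a w) = 0 := by
        intro w hw
        induction hw using Submodule.span_induction with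
        | mem x hx =>
          apply ih
          intro b hb
          by_cases hba : b = a
          · subst hba
            rw [Function.update_self]
            exact hx
          · rw [Function.update_of_ne hba]
            exact hv b (by simp [hba, hb])
        | zero => rw [f.map_update_zero]
        | add x y _ _ hx hy => rw [f.map_update_add, hx, hy, add_zero]
        | smul c x _ hx => rw [f.map_update_smul, hx, smul_zero]
      have h2 := h1 (v a) (by rw [hS]; exact Submodule.mem_top)
      rwa [Function.update_eq_self] at h2
  ext v
  exact key Finset.univ v fun a ha => absurd (Finset.mem_univ a) ha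

end ext

section gen

variable {κ : Type} [Fintype κ] {W : κ → Type} [∀ a, AddCommGroup (W a)] [∀ a, Module k (W a)]
  (T : ∀ a, W a →ₗ[k] W a)

/-- An eigenform vanishes on generalized eigenvectors unless its eigenvalue is the product of the
eigenvalues. -/
theorem eq_zero_of_gen (h : MultilinearMap k W k) (lam : k)
    (hT : ∀ v, h (fun a => T a (v a)) = lam * h v) (α : κ → k) (hne : lam ≠ ∏ a, α a)
    (v : ∀ a, W a) (hv : ∀ a, v a ∈ Module.End.maxGenEigenspace (T a) (α a)) : h v = 0 := by
  classical
  have key : ∀ N : ℕ, ∀ m : κ → ℕ, ∑ a, m a = N → ∀ v : ∀ a, W a,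
      (∀ a, ((T a - algebraMap k (End k (W a)) (α a)) ^ (m a)) (v a) = 0) → h v = 0 := by
    intro N
    induction N using Nat.strong_induction_on with
    | _ N ih =>
      intro m hm v hv
      by_cases h0 : ∃ a, m a = 0
      · obtain ⟨a, ha⟩ := h0
        have h1 := hv a
        rw [ha, pow_zero, Module.End.one_apply] at h1
        exact h.map_coord_zero a h1
      · push Not at h0
        let w : ∀ a, W a := fun a => (T a - algebraMap k (End k (W a)) (α a)) (v a)
        have hTv : ∀ a, T a (v a) = α a • v a + w a := by
          intro a
          simp only [w, LinearMap.sub_apply, Module.algebraMap_end_apply]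
          abel
        have h1 : h (fun a => T a (v a)) =
            ∑ s : Finset κ, h (s.piecewise (fun a => α a • v a) w) := by
          have h2 : (fun a => T a (v a)) = (fun a => α a • v a) + w := funext hTv
          rw [h2, h.map_add_univ]
        rw [hT, Finset.sum_eq_single Finset.univ] at h1
        · rw [Finset.piecewise_univ, h.map_smul_univ, smul_eq_mul] at h1
          have h3 : (lam - ∏ a, α a) * h v = 0 := by rw [sub_mul, h1, sub_self]
          exact (mul_eq_zero.1 h3).resolve_left (sub_ne_zero.2 hne)
        · intro s _ hs
          obtain ⟨a₀, ha₀⟩ : ∃ a, a ∉ s := by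
            by_contra hcon
            push Not at hcon
            exact hs (Finset.eq_univ_of_forall hcon)
          refine ih (∑ a, (if a ∈ s then m a else m a - 1)) ?_ _ rfl _ ?_
          · rw [← hm]
            apply Finset.sum_lt_sum
            · intro a _
              split_ifs
              · exact le_rfl
              · exact Nat.sub_le _ _
            · refine ⟨a₀, Finset.mem_univ _, ?_⟩
              rw [if_neg ha₀]
              have := h0 a₀
              omega
          · intro a
            by_cases ha : a ∈ s
            · rw [if_pos ha, Finset.piecewise_eq_of_mem _ _ _ ha, map_smul, hv a, smul_zero]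
            · rw [if_neg ha, Finset.piecewise_eq_of_notMem _ _ _ ha]
              have h4 := hv a
              obtain ⟨r, hr⟩ : ∃ r, m a = r + 1 := ⟨m a - 1, by have := h0 a; omega⟩
              rw [hr, pow_succ, Module.End.mul_apply] at h4
              rw [hr, Nat.add_sub_cancel]
              exact h4
        · intro hcon
          exact absurd (Finset.mem_univ _) hcon
  choose m hm using fun a => (Module.End.mem_maxGenEigenspace (T a) (α a) (v a)).1 (hv a)
  refine key _ m rfl v fun a => ?_
  have h1 := hm a
  rw [Algebra.algebraMap_eq_smul_one]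
  exact h1

/-- the derivation given by the logarithms of the eigenvalues -/
theorem exists_log [IsAlgClosed k] {V : Type} [AddCommGroup V] [Module k V]
    [FiniteDimensional k V] (T : V →ₗ[k] V) (L : k → ℚ) :
    ∃ X : V →ₗ[k] V, ∀ α : k, ∀ v ∈ Module.End.maxGenEigenspace T α, X v = ((L α : ℚ) : k) • v := by
  classical
  have hint : DirectSum.IsInternal (fun α : k => Module.End.maxGenEigenspace T α) :=
    DirectSum.isInternal_submodule_of_iSupIndep_of_iSup_eq_top
      (Module.End.independent_maxGenEigenspace T) (Module.End.iSup_maxGenEigenspace_eq_top T)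
  let e := LinearEquiv.ofBijective (DirectSum.coeLinearMap fun α : k => Module.End.maxGenEigenspace T α) hint
  let Y : (DirectSum k fun α : k => Module.End.maxGenEigenspace T α) →ₗ[k] V :=
    DirectSum.toModule k k V (fun α => ((L α : ℚ) : k) • (Module.End.maxGenEigenspace T α).subtype)
  refine ⟨Y.comp e.symm.toLinearMap, fun α v hv => ?_⟩
  have h1 : e.symm v = DirectSum.lof k k (fun α : k => Module.End.maxGenEigenspace T α) α ⟨v, hv⟩ := by
    rw [LinearEquiv.symm_apply_eq]
    change v = DirectSum.coeLinearMap (fun α : k => Module.End.maxGenEigenspace T α) _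
    rw [DirectSum.coeLinearMap_lof]
  change Y (e.symm v) = _
  rw [h1]
  change DirectSum.toModule k k V _ _ = _
  rw [DirectSum.toModule_lof]
  rfl

/-- A logarithm on a field. -/
def IsLog (L : k → ℚ) : Prop := L 1 = 0 ∧ ∀ x y, x ≠ 0 → y ≠ 0 → L (x * y) = L x + L y

theorem IsLog.prod {L : k → ℚ} (hL : IsLog L) {ι : Type} (s : Finset ι) (x : ι → k)
    (hx : ∀ i ∈ s, x i ≠ 0) : L (∏ i ∈ s, x i) = ∑ i ∈ s, L (x i) := by
  classical
  induction s using Finset.induction_on with
  | empty => rw [Finset.prod_empty, Finset.sum_empty, hL.1]
  | insert a s ha ih =>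
    rw [Finset.prod_insert ha, Finset.sum_insert ha, hL.2 _ _ (hx a (Finset.mem_insert_self _ _))
      (Finset.prod_ne_zero_iff.2 fun i hi => hx i (Finset.mem_insert_of_mem hi)),
      ih fun i hi => hx i (Finset.mem_insert_of_mem hi)]

open Classical in
/-- the form `h` with the operator `X` applied to the variable `a` -/
noncomputable def ins (h : MultilinearMap k W k) (a : κ) (X : W a →ₗ[k] W a) :
    MultilinearMap k W k :=
  h.compLinearMap (Function.update (fun _ => LinearMap.id) a X)

theorem ins_apply [DecidableEq κ] (h : MultilinearMap k W k) (a : κ) (X : W a →ₗ[k] W a) (v : ∀ b, W b) :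
    ins h a X v = h (Function.update v a (X (v a))) := by
  unfold ins
  rw [MultilinearMap.compLinearMap_apply]
  congr 1
  funext b
  unfold Function.update
  by_cases hb : b = a
  · subst hb
    rw [dif_pos rfl, dif_pos rfl]
  · rw [dif_neg hb, dif_neg hb]
    rfl

theorem sum_ins [IsAlgClosed k] [∀ a, FiniteDimensional k (W a)] (h : MultilinearMap k W k)
    (lam : k) (hlam : lam ≠ 0) (hT : ∀ v, h (fun a => T a (v a)) = lam * h v) (L : k → ℚ)
    (hL : IsLog L) (X : ∀ a, W a →ₗ[k] W a)
    (hX : ∀ a, ∀ α : k, ∀ v ∈ Module.End.maxGenEigenspace (T a) α, X a v = ((L α : ℚ) : k) • v) :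
    ∑ a, ins h a (X a) = ((L lam : ℚ) : k) • h := by
  classical
  rw [← sub_eq_zero]
  refine multi_ext _ (fun a => ⋃ α : k, (Module.End.maxGenEigenspace (T a) α : Set (W a))) ?_ ?_
  · intro a
    rw [Submodule.span_iUnion]
    simp only [Submodule.span_eq]
    exact Module.End.iSup_maxGenEigenspace_eq_top _
  · intro v hv
    choose α hα using fun a => Set.mem_iUnion.1 (hv a)
    have h1 : ∀ a, ins h a (X a) v = ((L (α a) : ℚ) : k) * h v := by
      intro a
      rw [ins_apply, hX a (α a) _ (hα a), h.map_update_smul, Function.update_eq_self, smul_eq_mul]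
    change (∑ a, ins h a (X a)) v - (((L lam : ℚ) : k) • h) v = 0
    rw [sum_apply, smul_apply, smul_eq_mul]
    simp only [h1]
    rw [← Finset.sum_mul, ← sub_mul]
    by_cases hv0 : h v = 0
    · rw [hv0, mul_zero]
    · have h2 : lam = ∏ a, α a := by
        by_contra hne
        exact hv0 (eq_zero_of_gen T h lam hT α hne v hα)
      have h3 : ∀ a, α a ≠ 0 := by
        intro a ha
        exact hlam (h2.trans (Finset.prod_eq_zero (Finset.mem_univ a) ha))
      have h4 : L lam = ∑ a, L (α a) := by
        rw [h2]
        exact hL.prod _ _ fun a _ => h3 a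
      rw [h4, Rat.cast_sum, sub_self, zero_mul]

end gen

end Pool.Agent.TH5.DT
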