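import Pool.Agent.TH5.DT.Det

/-!
# The relation between the eigenvalue on a stable line of forms and the determinants
-/

set_option autoImplicit false
set_option linter.unusedSectionVars false

namespace Pool.Agent.TH5.DT

open Module

variable {k : Type} [Field k] [CharZero k]

theorem root_of_log (u : kˣ) (h : ∀ L : k → ℚ, IsLog L → L u = 0) :
    ∃ n : ℕ, 0 < n ∧ u ^ n = 1 := by
  classical
  by_contra hcon
  have hinf : ¬ IsOfFinOrder u := by
    intro hu
    obtain ⟨n, hn, hn'⟩ := isOfFinOrder_iff_pow_eq_one.1 hu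
    exact hcon ⟨n, hn, hn'⟩
  let f : ℤ →+ Additive kˣ := zmultiplesHom _ (Additive.ofMul u)
  have hf : Function.Injective f := by
    intro a b hab
    have h1 : u ^ a = u ^ b := by
      have h2 : a • Additive.ofMul u = b • Additive.ofMul u := hab
      exact Additive.ofMul.injective h2
    exact injective_zpow_iff_not_isOfFinOrder.2 hinf h1
  obtain ⟨e, he⟩ := (Module.Baer.of_divisible ℚ).extension_property_addMonoidHom f hf
    (Int.castAddHom ℚ)
  let L : k → ℚ := fun x => if hx : x ≠ 0 then e (Additive.ofMul (Units.mk0 x hx)) else 0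
  have hL1 : ∀ x (hx : x ≠ 0), L x = e (Additive.ofMul (Units.mk0 x hx)) := fun x hx => dif_pos hx
  have hL : IsLog L := by
    constructor
    · rw [hL1 1 one_ne_zero]
      have h1 : Units.mk0 (1 : k) one_ne_zero = 1 := Units.ext rfl
      rw [h1, ofMul_one, map_zero]
    · intro x y hx hy
      rw [hL1 _ (mul_ne_zero hx hy), hL1 x hx, hL1 y hy, ← map_add, ← ofMul_mul]
      congr 2
      exact Units.ext rfl
  have h1 := h L hL
  rw [hL1 _ u.ne_zero] at h1
  have h2 : Units.mk0 (u : k) u.ne_zero = u := Units.ext rfl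
  rw [h2] at h1
  have h3 := DFunLike.congr_fun he (1 : ℤ)
  change e ((1 : ℤ) • Additive.ofMul u) = ((1 : ℤ) : ℚ) at h3
  rw [one_smul, h1] at h3
  norm_num at h3

section

variable [IsAlgClosed k] {κ : Type} [Fintype κ] {W : κ → Type} [∀ a, AddCommGroup (W a)]
  [∀ a, Module k (W a)] [∀ a, FiniteDimensional k (W a)] [∀ a, Nontrivial (W a)]
  {G : Type} [Group G] (ρ : ∀ a, G →* (W a →ₗ[k] W a))

/-- the determinant as a character with values in the units -/
noncomputable def detU {V : Type} [AddCommGroup V] [Module k V] (r : G →* (V →ₗ[k] V)) :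
    G →* kˣ :=
  ((LinearMap.det : (V →ₗ[k] V) →* k).comp r).toHomUnits

theorem detU_coe {V : Type} [AddCommGroup V] [Module k V] (r : G →* (V →ₗ[k] V)) (g : G) :
    ((detU r g : kˣ) : k) = LinearMap.det (r g) := rfl

/-- **The eigenvalues on a stable line with a stable complement in a space of forms on irreducible
modules**: a power is a product of powers of the determinants. -/
theorem dets [Group.FG G]
    (hirr : ∀ a, ∀ U : Submodule k (W a), (∀ g : G, ∀ u ∈ U, ρ a g u ∈ U) → U = ⊥ ∨ U = ⊤)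
    (h : MultilinearMap k W k) (hne : h ≠ 0) (lam : G → kˣ)
    (hT : ∀ g v, h (fun a => ρ a g (v a)) = lam g * h v)
    (hcr : ∀ P : Submodule k (MultilinearMap k W k),
      (∀ g, ∀ f ∈ P, f.compLinearMap (fun a => ρ a g) ∈ P) →
      ∃ Q : Submodule k (MultilinearMap k W k),
        (∀ g, ∀ f ∈ Q, f.compLinearMap (fun a => ρ a g) ∈ Q) ∧ IsCompl P Q) :
    ∃ (E : ℕ) (e : κ → ℕ), 0 < E ∧ (∀ a, 0 < e a) ∧
      ∀ g, lam g ^ E = ∏ a, detU (ρ a) g ^ e a := by
  classical
  -- the functional
  have hcomp : ∀ g, h.compLinearMap (fun a => ρ a g) = (lam g : k) • h := by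
    intro g
    ext v
    rw [MultilinearMap.compLinearMap_apply, hT, smul_apply, smul_eq_mul]
  obtain ⟨Q, hQ, hc⟩ := hcr (Submodule.span k {h}) (by
    intro g f hf
    obtain ⟨c, rfl⟩ := Submodule.mem_span_singleton.1 hf
    refine Submodule.mem_span_singleton.2 ⟨c * lam g, ?_⟩
    ext v
    rw [smul_apply, MultilinearMap.compLinearMap_apply, smul_apply, hT, smul_eq_mul, smul_eq_mul]
    ring)
  let pr := (Submodule.span k {h}).projectionOnto Q hc
  let Θ : MultilinearMap k W k →ₗ[k] k :=
    (LinearEquiv.toSpanNonzeroSingleton k _ h hne).symm.toLinearMap.comp pr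
  have hΘh : ∀ c : k, Θ (c • h) = c := by
    intro c
    change (LinearEquiv.toSpanNonzeroSingleton k _ h hne).symm (pr (c • h)) = c
    have h1 : pr (c • h) = LinearEquiv.toSpanNonzeroSingleton k _ h hne c := by
      have h2 : c • h ∈ Submodule.span k {h} := Submodule.mem_span_singleton.2 ⟨c, rfl⟩
      have h3 := Submodule.projectionOnto_apply_left hc ⟨c • h, h2⟩
      refine h3.trans ?_
      apply Subtype.ext
      rfl
    rw [h1, LinearEquiv.symm_apply_apply]
  have hΘQ : ∀ f ∈ Q, Θ f = 0 := by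
    intro f hf
    change (LinearEquiv.toSpanNonzeroSingleton k _ h hne).symm (pr f) = 0
    have h1 : pr f = 0 := (Submodule.projectionOnto_apply_eq_zero_iff hc).2 hf
    rw [h1, map_zero]
  have hΘ1 : Θ h = 1 := by
    have h1 := hΘh 1
    rwa [one_smul] at h1
  have hΘ : ∀ g f, Θ (f.compLinearMap fun a => ρ a g) = lam g * Θ f := by
    intro g f
    have h1 : f ∈ Submodule.span k {h} ⊔ Q := by rw [hc.sup_eq_top]; exact Submodule.mem_top
    obtain ⟨y, hy, q, hq, rfl⟩ := Submodule.mem_sup.1 h1
    obtain ⟨c, rfl⟩ := Submodule.mem_span_singleton.1 hy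
    have h2 : (c • h + q).compLinearMap (fun a => ρ a g) =
        (c * lam g) • h + q.compLinearMap (fun a => ρ a g) := by
      ext v
      rw [MultilinearMap.compLinearMap_apply, add_apply, add_apply, smul_apply, smul_apply,
        MultilinearMap.compLinearMap_apply, hT, smul_eq_mul, smul_eq_mul]
      ring
    rw [h2, map_add, map_add, hΘh, hΘQ _ (hQ g q hq), hΘh, hΘQ _ hq, add_zero, add_zero, mul_comm]
  -- multiplicativity of `lam`
  obtain ⟨v₀, hv₀⟩ : ∃ v, h v ≠ 0 := by
    by_contra hcon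
    push Not at hcon
    exact hne (MultilinearMap.ext hcon)
  have hmul : ∀ g g', lam (g * g') = lam g * lam g' := by
    intro g g'
    apply Units.ext
    apply mul_right_cancel₀ hv₀
    rw [← hT]
    have h1 : (fun a => ρ a (g * g') (v₀ a)) = fun a => ρ a g (ρ a g' (v₀ a)) := by
      funext a
      rw [map_mul]
      rfl
    rw [h1, hT, hT, Units.val_mul]
    ring
  let lamH : G →* kˣ := MonoidHom.mk' lam hmul
  -- the exponents
  let d : κ → ℕ := fun a => finrank k (W a)
  have hd : ∀ a, 0 < d a := fun a => Module.finrank_pos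
  let D : ℕ := ∏ a, d a
  let q : κ → ℕ := fun a => ∏ b ∈ Finset.univ.erase a, d b
  have hD : ∀ a, D = d a * q a := fun a =>
    (Finset.mul_prod_erase Finset.univ d (Finset.mem_univ a)).symm
  have hDpos : 0 < D := Finset.prod_pos fun a _ => hd a
  have hqpos : ∀ a, 0 < q a := fun a => Finset.prod_pos fun b _ => hd b
  let u : G →* kˣ := (lamH ^ D) * (∏ a, detU (ρ a) ^ q a)⁻¹
  have hu : ∀ g, u g = lam g ^ D * (∏ a, detU (ρ a) g ^ q a)⁻¹ := by
    intro g
    simp only [u, MonoidHom.mul_apply, MonoidHom.inv_apply, MonoidHom.pow_apply,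
      MonoidHom.finsetProd_apply]
    rfl
  have htors : ∀ g, ∃ n : ℕ, 0 < n ∧ u g ^ n = 1 := by
    intro g
    apply root_of_log
    intro L hL
    have hpow : ∀ (x : k) (n : ℕ), x ≠ 0 → L (x ^ n) = n * L x := by
      intro x n hx
      have h1 := hL.prod (Finset.range n) (fun _ => x) (fun _ _ => hx)
      rwa [Finset.prod_const, Finset.card_range, Finset.sum_const, Finset.card_range,
        nsmul_eq_mul] at h1
    have h1 := log_eq ρ hirr h (fun g => (lam g : k)) (fun g => (lam g).ne_zero) hT Θ hΘ hΘ1 g L hL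
    have h2 : L ((lam g : k) ^ D) = L (∏ a, (LinearMap.det (ρ a g)) ^ q a) := by
      rw [hpow _ _ (lam g).ne_zero, hL.prod _ _ fun a _ => pow_ne_zero _ (by
        rw [← detU_coe]; exact Units.ne_zero _), h1, Finset.mul_sum]
      refine Finset.sum_congr rfl fun a _ => ?_
      rw [hpow _ _ (by rw [← detU_coe]; exact Units.ne_zero _), hD a]
      have h3 : ((finrank k (W a) : ℕ) : ℚ) ≠ 0 := by exact_mod_cast (hd a).ne'
      push_cast
      simp only [d]
      field_simp
    have h3 : ((u g : kˣ) : k) * (∏ a, (LinearMap.det (ρ a g)) ^ q a) = (lam g : k) ^ D := by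
      have h4 : u g * ∏ a, detU (ρ a) g ^ q a = lam g ^ D := by
        rw [hu, inv_mul_cancel_right]
      have h5 := congrArg (fun z : kˣ => (z : k)) h4
      simp only [Units.val_mul, Units.coe_prod, Units.val_pow_eq_pow_val, detU_coe] at h5
      exact h5
    have h4 := hL.2 ((u g : kˣ) : k) (∏ a, (LinearMap.det (ρ a g)) ^ q a) (Units.ne_zero _)
      (Finset.prod_ne_zero_iff.2 fun a _ => pow_ne_zero _ (by
        rw [← detU_coe]; exact Units.ne_zero _))
    rw [h3, h2] at h4
    linarith
  -- the order is bounded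
  obtain ⟨M, hM, hM'⟩ : ∃ M : ℕ, 0 < M ∧ ∀ g, u g ^ M = 1 := by
    choose n hn hn' using htors
    obtain ⟨S, hS⟩ := Group.fg_def.1 (inferInstance : Group.FG G)
    refine ⟨∏ s ∈ S, n s, Finset.prod_pos fun s _ => hn s, fun g => ?_⟩
    have h1 : Subgroup.closure (S : Set G) ≤ ((powMonoidHom (∏ s ∈ S, n s)).comp u).ker := by
      rw [Subgroup.closure_le]
      intro s hs
      rw [SetLike.mem_coe, MonoidHom.mem_ker]
      change u s ^ (∏ s ∈ S, n s) = 1
      rw [← Finset.mul_prod_erase S n hs, pow_mul, hn', one_pow]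
    have h2 : g ∈ ((powMonoidHom (∏ s ∈ S, n s)).comp u).ker := by
      apply h1
      rw [hS]
      exact Subgroup.mem_top g
    exact h2
  refine ⟨D * M, fun a => q a * M, Nat.mul_pos hDpos hM, fun a => Nat.mul_pos (hqpos a) hM,
    fun g => ?_⟩
  have h1 := hM' g
  rw [hu, mul_pow, inv_pow, mul_inv_eq_one, ← pow_mul, ← Finset.prod_pow] at h1
  rw [h1]
  exact Finset.prod_congr rfl fun a _ => by rw [← pow_mul]

end

end Pool.Agent.TH5.DT
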