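import Pool.Agent.TH5.DT.Defs

/-!
# The determinant condition implies that Tate forms split
-/

set_option autoImplicit false
set_option linter.unusedSectionVars false

namespace Pool.Agent.TH5.DT

open Module

variable {k : Type} [Field k] [CharZero k] [IsAlgClosed k] {Γ : Type} [Group Γ] [Group.FG Γ]
  (ε : Γ →* kˣ) {T : Type} (V : T → Type) [∀ t, AddCommGroup (V t)]
  [∀ t, Module k (V t)] [∀ t, FiniteDimensional k (V t)] [∀ t, Nontrivial (V t)]
  (ρ : ∀ t, Γ →* (V t →ₗ[k] V t)) (A : T → Prop)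

/-- `dets` for words and subgroups of finite index -/
theorem dets_forms (hcr : FormsCompletelyReducible V ρ) {κ : Type} [Fintype κ] (t : κ → T)
    (ht : ∀ a, PotIrreducible V ρ (t a)) (H : Subgroup Γ) (hH : H.FiniteIndex)
    (η : MultilinearMap k (fun a => V (t a)) k) (hne : η ≠ 0) (x : Γ → kˣ)
    (hx : ∀ γ ∈ H, ∀ v : ∀ a, V (t a), η (fun a => ρ (t a) γ (v a)) = x γ * η v) :
    ∃ (E : ℕ) (e : κ → ℕ), 0 < E ∧ (∀ a, 0 < e a) ∧
      ∀ γ ∈ H, x γ ^ E = ∏ a, detU (ρ (t a)) γ ^ e a := by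
  have : Group.FG H := inferInstance
  obtain ⟨E, e, hE, he, h⟩ := dets (G := H) (W := fun a => V (t a))
    (fun a => (ρ (t a)).comp H.subtype) (by
      intro a U hU
      exact ht a H hH U fun γ hγ u hu => hU ⟨γ, hγ⟩ u hu) η hne
    (fun g => x g) (fun g v => hx g g.2 v) (by
      intro P hP
      obtain ⟨Q, hQ, hc⟩ := hcr κ t H hH P fun γ hγ f hf => hP ⟨γ, hγ⟩ f hf
      exact ⟨Q, fun g f hf => hQ g g.2 f hf, hc⟩)
  exact ⟨E, e, hE, he, fun γ hγ => h ⟨γ, hγ⟩⟩

theorem prod_word [Fintype T] {κ : Type} [Fintype κ] [DecidableEq T] (t : κ → T) (w : κ → ℕ)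
    (D : T → kˣ) : ∏ a, D (t a) ^ w a = ∏ s, D s ^ (∑ a with t a = s, w a) := by
  rw [← Finset.prod_fiberwise (s := Finset.univ) (g := t)]
  refine Finset.prod_congr rfl fun s _ => ?_
  rw [← Finset.prod_pow_eq_pow_sum]
  refine Finset.prod_congr rfl fun a ha => ?_
  rw [(Finset.mem_filter.1 ha).2]

theorem prod_word_filter [Fintype T] {κ : Type} [Fintype κ] [DecidableEq T] [DecidablePred A]
    (t : κ → T) (w : κ → ℕ)
    (D : T → kˣ) : ∏ a : {a // A (t a)}, D (t a) ^ w a =
      ∏ s with A s, D s ^ (∑ a with t a = s, w a) := by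
  have h1 : ∏ a : {a // A (t a)}, D (t a) ^ w a = ∏ a with A (t a), D (t a) ^ w a := by
    rw [← Finset.prod_subtype_eq_prod_filter, Finset.subtype_univ]
  rw [h1, ← Finset.prod_fiberwise_of_maps_to (s := Finset.univ.filter fun a => A (t a))
    (t := Finset.univ.filter A) (g := t) (fun a ha => by
      rw [Finset.mem_filter] at ha ⊢
      exact ⟨Finset.mem_univ _, ha.2⟩)]
  refine Finset.prod_congr rfl fun s hs => ?_
  rw [← Finset.prod_pow_eq_pow_sum, Finset.filter_filter]
  have h2 : (Finset.univ.filter fun a => A (t a) ∧ t a = s) =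
      Finset.univ.filter fun a => t a = s := by
    ext a
    simp only [Finset.mem_filter, Finset.mem_univ, true_and, and_iff_right_iff_imp]
    rintro rfl
    exact (Finset.mem_filter.1 hs).2
  rw [h2]
  refine Finset.prod_congr rfl fun a ha => ?_
  rw [(Finset.mem_filter.1 ha).2]

theorem splits_of_detIndependent [Fintype T]
    (hA : ∀ t, A t → ∀ γ, ∃ c : k, ∀ v, ρ t γ v = c • v)
    (hirr : ∀ t, ¬ A t → PotIrreducible V ρ t) (hcr : FormsCompletelyReducible V ρ)
    (hind : DetIndependent ε V ρ A) : TateSplits ε V ρ A := by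
  classical
  intro κ _ t f ⟨xf, hxf, H, hH, hf⟩
  choose sc hsc using hA
  let KA := {a : κ // A (t a)}
  let KB := {a : κ // ¬ A (t a)}
  -- the scalars as units
  have hdetsc : ∀ s (hs : A s) γ, ((detU (ρ s) γ : kˣ) : k) = sc s hs γ ^ finrank k (V s) := by
    intro s hs γ
    rw [detU_coe]
    have h1 : ρ s γ = sc s hs γ • (1 : V s →ₗ[k] V s) := by
      ext v
      exact hsc s hs γ v
    rw [h1, LinearMap.det_smul, map_one, mul_one]
  have hsc0 : ∀ s (hs : A s) γ, sc s hs γ ≠ 0 := by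
    intro s hs γ h0
    have h1 := hdetsc s hs γ
    rw [h0, zero_pow (Module.finrank_pos (R := k) (M := V s)).ne'] at h1
    exact Units.ne_zero _ h1
  let scU : ∀ s, A s → Γ → kˣ := fun s hs γ => Units.mk0 _ (hsc0 s hs γ)
  have hscU : ∀ s (hs : A s) γ v, ρ s γ v = ((scU s hs γ : kˣ) : k) • v := fun s hs γ v =>
    hsc s hs γ v
  have hdetU : ∀ s (hs : A s) γ, detU (ρ s) γ = scU s hs γ ^ finrank k (V s) := by
    intro s hs γ
    apply Units.ext
    rw [hdetsc s hs γ, Units.val_pow_eq_pow_val]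
    rfl
  let x : Γ → kˣ := fun γ => ∏ a : KA, scU (t a) a.2 γ
  let b : ∀ a : κ, Basis (Fin (finrank k (V (t a)))) k (V (t a)) := fun a => finBasis k (V (t a))
  let ix := ∀ a : KA, Fin (finrank k (V (t a)))
  let zb : ix → ∀ a : KA, V (t a) := fun e a => b a (e a)
  -- the form with the variables of type `A` as parameters
  let gB : (∀ a : KB, V (t a)) → MultilinearMap k (fun a : KA => V (t a)) k := fun z =>
    f.domDomRestrict (fun a => A (t a)) z
  have hgB : ∀ z y, gB z y = f (fun j => if h : A (t j) then y ⟨j, h⟩ else z ⟨j, h⟩) :=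
    fun z y => rfl
  let η : ix → MultilinearMap k (fun a : KB => V (t a)) k := fun e =>
    f.domDomRestrict (fun a => ¬ A (t a)) (fun a => zb e ⟨a, not_not.1 a.2⟩)
  have hη : ∀ e z, η e z = gB z (zb e) := by
    intro e z
    rw [hgB]
    change f (fun j => if h : ¬ A (t j) then z ⟨j, h⟩ else zb e ⟨j, not_not.1 h⟩) = _
    congr 1
    funext j
    by_cases h : A (t j)
    · rw [dif_neg (not_not.2 h), dif_pos h]
    · rw [dif_pos h, dif_neg h]
  let φ : ix → MultilinearMap k (fun a : KA => V (t a)) k := fun e =>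
    (MultilinearMap.mkPiAlgebra k KA k).compLinearMap (fun a : KA => (b a).coord (e a))
  have hφ : ∀ e y, φ e y = ∏ a : KA, (b a).repr (y a) (e a) := by
    intro e y
    change (MultilinearMap.mkPiAlgebra k KA k) (fun a : KA => (b a).coord (e a) (y a)) = _
    rw [MultilinearMap.mkPiAlgebra_apply]
    rfl
  let ψ : ix → MultilinearMap k (fun a => V (t a)) k := fun e =>
    f.compLinearMap (fun a => if h : A (t a) then
      LinearMap.smulRight ((b a).coord (e ⟨a, h⟩)) (b a (e ⟨a, h⟩)) else LinearMap.id)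
  have hψ0 : ∀ e v, ψ e v = gB (fun a => v a)
      (fun a : KA => (b a).repr (v a) (e a) • zb e a) := by
    intro e v
    rw [hgB]
    change f (fun a => (if h : A (t a) then
      LinearMap.smulRight ((b a).coord (e ⟨a, h⟩)) (b a (e ⟨a, h⟩)) else LinearMap.id) (v a)) = _
    congr 1
    funext j
    by_cases h : A (t j)
    · rw [dif_pos h, dif_pos h]
      rfl
    · rw [dif_neg h, dif_neg h]
      rfl
  have hψ : ∀ e v, ψ e v = φ e (fun a => v a) * η e (fun a => v a) := by
    intro e v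
    rw [hψ0, (gB _).map_smul_univ, hφ, hη, smul_eq_mul]
  have hsum : f = ∑ e, ψ e := by
    ext v
    rw [sum_apply]
    simp only [hψ0]
    have h1 : f v = gB (fun a => v a) (fun a : KA => v a) := by
      rw [hgB]
      congr 1
      funext j
      by_cases h : A (t j)
      · rw [dif_pos h]
      · rw [dif_neg h]
    rw [h1]
    have h2 : (fun a : KA => v a) = fun a : KA => ∑ j, (b a).repr (v a) j • b a j := by
      funext a
      exact ((b a).sum_repr (v a)).symm
    conv_lhs => rw [h2]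
    rw [(gB _).map_sum]
  rw [hsum]
  refine Submodule.sum_mem _ fun e _ => ?_
  by_cases hη0 : η e = 0
  · have h1 : ψ e = 0 := by
      ext v
      rw [hψ, hη0]
      change _ * (0 : k) = 0
      rw [mul_zero]
    rw [h1]
    exact Submodule.zero_mem _
  -- the form in the other variables is an eigenform
  let lam : Γ → kˣ := fun γ => xf γ * (x γ)⁻¹
  have hlam : ∀ γ ∈ H, ∀ z : ∀ a : KB, V (t a),
      η e (fun a => ρ (t a) γ (z a)) = lam γ * η e z := by
    intro γ hγ z
    rw [hη, hη]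
    have h1 := hf γ hγ (fun j => if h : A (t j) then zb e ⟨j, h⟩ else z ⟨j, h⟩)
    have h2 : f (fun j => ρ (t j) γ (if h : A (t j) then zb e ⟨j, h⟩ else z ⟨j, h⟩)) =
        gB (fun a => ρ (t a) γ (z a)) (fun a => ((scU (t a) a.2 γ : kˣ) : k) • zb e a) := by
      rw [hgB]
      congr 1
      funext j
      by_cases h : A (t j)
      · rw [dif_pos h, dif_pos h, hscU (t j) h]
      · rw [dif_neg h, dif_neg h]
    rw [h2, (gB _).map_smul_univ, smul_eq_mul] at h1
    have h3 : ((x γ : kˣ) : k) = ∏ a : KA, ((scU (t a) a.2 γ : kˣ) : k) := by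
      simp only [x, Units.coe_prod]
    rw [← h3] at h1
    have h4 : gB z (zb e) = f (fun j => if h : A (t j) then zb e ⟨j, h⟩ else z ⟨j, h⟩) := rfl
    rw [← h4] at h1
    apply mul_left_cancel₀ (x γ).ne_zero
    rw [h1]
    simp only [lam, Units.val_mul]
    have h5 : ((x γ : kˣ) : k) * (((x γ)⁻¹ : kˣ) : k) = 1 := by
      rw [← Units.val_mul, mul_inv_cancel, Units.val_one]
    calc ((xf γ : kˣ) : k) * gB z (zb e)
        = (((x γ : kˣ) : k) * (((x γ)⁻¹ : kˣ) : k)) * (((xf γ : kˣ) : k) * gB z (zb e)) := by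
          rw [h5, one_mul]
      _ = _ := by ring
  obtain ⟨E, e', hE, he', hrel⟩ := dets_forms V ρ hcr (fun a : KB => t a)
    (fun a => hirr _ a.2) H hH (η e) hη0 lam hlam
  -- the relation between determinants
  let dd : KA → ℕ := fun a => finrank k (V (t a))
  have hdd : ∀ a, 0 < dd a := fun a => Module.finrank_pos
  let D' : ℕ := ∏ a, dd a
  have hD' : 0 < D' := Finset.prod_pos fun a _ => hdd a
  let q : KA → ℕ := fun a => ∏ c ∈ Finset.univ.erase a, dd c
  have hDq : ∀ a, D' = dd a * q a := fun a =>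
    (Finset.mul_prod_erase Finset.univ dd (Finset.mem_univ a)).symm
  have hxD : ∀ γ, x γ ^ D' = ∏ a : KA, detU (ρ (t a)) γ ^ q a := by
    intro γ
    simp only [x]
    rw [← Finset.prod_pow]
    refine Finset.prod_congr rfl fun a _ => ?_
    rw [hdetU (t a) a.2, hDq a, pow_mul]
  let w : κ → ℕ := fun a => if h : A (t a) then q ⟨a, h⟩ * E else e' ⟨a, h⟩ * D'
  have hw : ∀ γ ∈ H, xf γ ^ (E * D') = ∏ a, detU (ρ (t a)) γ ^ w a := by
    intro γ hγ
    have h1 : xf γ = lam γ * x γ := by
      simp only [lam]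
      rw [inv_mul_cancel_right]
    rw [← Fintype.prod_subtype_mul_prod_subtype (fun a => A (t a))]
    have h2 : ∏ a : KA, detU (ρ (t a)) γ ^ w a = x γ ^ (D' * E) := by
      rw [pow_mul, hxD, ← Finset.prod_pow]
      refine Finset.prod_congr rfl fun a _ => ?_
      simp only [w]
      rw [dif_pos a.2, pow_mul]
    have h3 : ∏ a : KB, detU (ρ (t a)) γ ^ w a = lam γ ^ (E * D') := by
      rw [pow_mul, hrel γ hγ, ← Finset.prod_pow]
      refine Finset.prod_congr rfl fun a _ => ?_
      simp only [w]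
      rw [dif_neg a.2, pow_mul]
    change xf γ ^ (E * D') = (∏ a : KA, detU (ρ (t a)) γ ^ w a) *
      ∏ a : KB, detU (ρ (t a)) γ ^ w a
    rw [h2, h3, h1, mul_pow, mul_comm D' E, mul_comm]
  let n : T → ℕ := fun s => ∑ a with t a = s, w a
  have hQ1 : IsRatPower ε (fun γ => ∏ s, detU (ρ s) γ ^ n s) := by
    refine (hxf.pow (E * D')).congr H hH fun γ hγ => ?_
    rw [hw γ hγ]
    exact prod_word t w (fun s => detU (ρ s) γ)
  have hQ2 := hind n hQ1
  have hQ3 : IsRatPower ε x := by
    have h1 : IsRatPower ε (fun γ => x γ ^ (D' * E)) := by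
      refine hQ2.congr ⊤ inferInstance fun γ _ => ?_
      have h2 := prod_word_filter A t w (fun s => detU (ρ s) γ)
      have h3 : ∏ a : KA, detU (ρ (t a)) γ ^ w a = x γ ^ (D' * E) := by
        rw [pow_mul, hxD, ← Finset.prod_pow]
        refine Finset.prod_congr rfl fun a _ => ?_
        simp only [w]
        rw [dif_pos a.2, pow_mul]
      rw [← h3]
      refine Eq.trans ?_ h2.symm
      refine Finset.prod_congr ?_ fun s _ => rfl
      ext s
      simp only [Finset.mem_filter]
    exact IsRatPower.of_pow (Nat.mul_pos hD' hE) h1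
  refine Submodule.subset_span ⟨φ e, η e, ⟨x, hQ3, ⊤, inferInstance, ?_⟩,
    ⟨lam, hxf.mul hQ3.inv, H, hH, hlam⟩, hψ e⟩
  intro γ _ v
  rw [hφ, hφ]
  have h3 : ((x γ : kˣ) : k) = ∏ a : KA, ((scU (t a) a.2 γ : kˣ) : k) := by
    simp only [x, Units.coe_prod]
  rw [h3, ← Finset.prod_mul_distrib]
  refine Finset.prod_congr rfl fun a _ => ?_
  rw [hscU (t a) a.2, map_smul, Finsupp.smul_apply, smul_eq_mul]

end Pool.Agent.TH5.DT
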